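import Pool.Agent.R902.Half4

/-!
# MP_d4e3f3_nt

For every `a ≥ 1`, `(1/5^a) ∑_{k < 5^a} k C(6k,3k) C(3k,k) / 864^k ≡ 75 (mod 125)`.
-/

namespace Pool.Agent.Results.MP_d4e3f3_nt.PowersOfFive

open Finset

/-- `S_a = ∑_{k=0}^{5^a-1} k C(6k,3k) C(3k,k) / 864^k`. -/
def S (a : ℕ) : ℚ :=
  ∑ k ∈ range (5 ^ a), (k : ℚ) * ((6 * k).choose (3 * k) : ℚ) * ((3 * k).choose k : ℚ) / 864 ^ k

theorem den_of_norm (x : ℚ) (h : padicNorm 5 x ≤ 1) : Nat.Coprime 5 x.den := by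
  rw [Nat.Prime.coprime_iff_not_dvd (by norm_num)]
  intro hd
  have h1 : x * (x.den : ℚ) = (x.num : ℚ) := Rat.mul_den_eq_num x
  have h2 := congrArg (padicNorm 5) h1
  rw [padicNorm.mul] at h2
  have h3 : padicNorm 5 (x.den : ℚ) < 1 := (padicNorm.nat_lt_one_iff (p := 5) x.den).2 hd
  have h4 : padicNorm 5 (x.num : ℚ) = 1 := by
    rw [padicNorm.int_eq_one_iff]
    intro h5
    have h6 : 5 ∣ x.num.natAbs := Int.natCast_dvd.1 h5
    have := Nat.dvd_gcd h6 hd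
    rw [x.reduced] at this
    norm_num at this
  rw [h4] at h2
  have h7 : 0 ≤ padicNorm 5 (x.den : ℚ) := padicNorm.nonneg _
  nlinarith [padicNorm.nonneg (p := 5) x]

/-- `S_a / 5^a ≡ 75 (mod 125)` in `ℤ_(5)`: the number `(S_a/5^a - 75)/125` has denominator prime
to `5`. -/
theorem result (a : ℕ) (ha : 1 ≤ a) : Nat.Coprime 5 ((S a / 5 ^ a - 75) / 125).den := by
  apply den_of_norm
  obtain ⟨b, rfl⟩ : ∃ b, a = b + 1 := ⟨a - 1, by omega⟩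
  have h := R902.Half4.S_main b
  have e1 : S (b + 1) = ∑ m ∈ range (5 ^ (b + 1)), (m : ℚ) * R902.Half1.b m / 2 ^ m := by
    rw [S]
    refine Finset.sum_congr rfl fun k _ => ?_
    rw [R902.Half1.b, show (864 : ℚ) = 432 * 2 by norm_num, mul_pow]
    field_simp
  rw [← e1] at h
  have e2 : (S (b + 1) / 5 ^ (b + 1) - 75) / 125 * (5 : ℚ) ^ (b + 4) = S (b + 1) - 75 * 5 ^ (b + 1) := by
    rw [show b + 4 = (b + 1) + 3 by ring, pow_add]
    field_simp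
    ring
  have h2 := congrArg (padicNorm 5) e2
  rw [padicNorm.mul] at h2
  have h3 : padicNorm 5 ((5 : ℚ) ^ (b + 4)) = 1 / 5 ^ (b + 4) := R902.Half4.Npow5 (b + 4)
  rw [h3] at h2
  have h4 : padicNorm 5 (S (b + 1) - 75 * 5 ^ (b + 1)) ≤ 1 / 5 ^ (b + 4) := h
  rw [← h2] at h4
  have h5 : (0 : ℚ) < 1 / 5 ^ (b + 4) := by positivity
  exact le_of_mul_le_mul_right (by rwa [one_mul]) h5

end Pool.Agent.Results.MP_d4e3f3_nt.PowersOfFive
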